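import Pool.Agent.R838.TW.Cnt
import Pool.Agent.R838.TW.Form
import Pool.Agent.N76.SH.Tr

/-!
# The zeros of the shifted sums `Λ(s + h) + u Λ(s - h)` for elliptic curves

`E : y² = x³ + a x + b` is an elliptic curve over `ℚ` of conductor `N`, `Λ` its completed L-function. For `h > 0` and
`|u| = 1` let `F(s) = Λ(s + h) + u Λ(s - h)`. We prove unconditionally, for every `E`:

* every zero of `F` that is multiple or not on the line `Re s = 1` lies in one of the discs with centre `1 + i γ` and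
  radius `√(β² - h²)`, where `1 + β + i γ` is a zero of `Λ` with `|β| ≥ h`;
* between two heights outside these discs the number of zeros of `F`, counted with multiplicity, exceeds the number of
  distinct zeros of `F` on the line by at most the number of zeros of `Λ` at distance at least `h` from the line;
* for every `c < 1`, all zeros of `F` with imaginary part in `[-T, T]` except `C T^(1 - c h) log T` of them are simple
  and on the line, uniformly in `u` and in `h ≥ C / log T`; for `h = r / log T` this is `C e^(-c r) T log T`.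

Moreover, for every `h > 0`, all zeros of `Λ` are at distance at most `h` from the line if and only if for all
`|u| = 1` all zeros of `F` are on the line; and, for every fixed `u ≠ -1` with `|u| = 1`, the Riemann hypothesis for
`L(E, s)` holds if and only if for arbitrarily small `h > 0` all zeros of `F` are on the line.

Proof: for `Re z > 0` each pair `±β + i γ` of symmetric zeros of `X(z) = Λ(1 + z)` gives a factor at most `1` to
`|X(z - h) / X(z + h)|` exactly outside the disc above; hence `|X(z - h)| < |X(z + h)|` outside all discs (approximation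
by polynomials with zeros among those of `X` and on the line, and the maximum principle), and Rouché's theorem on
rectangles for `X(z + h) + r u X(z - h)`, `r → 1`, counts the zeros off the line. Multiple zeros on the line are moved
off the line by rotating `u` in one of the two directions, which bounds them by zeros off the line. The density theorem
is the one of the starting modules of project GD2 of helper671, helper24, helper771 (used in `OffLineZeros` here).
-/

set_option autoImplicit false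

open Complex UpperHalfPlane MatrixGroups CongruenceSubgroup

namespace Pool.Agent.Results.MP_553913_nt.ShiftedSums

/-- The coefficient `a_p` of `E : y² = x³ + a x + b` at a prime `p ∤ 2 (4a³ + 27b²)`: `p` minus the
number of pairs `(x, y)` modulo `p` with `y² ≡ x³ + a x + b (mod p)`. -/
noncomputable def ap (a b : ℤ) (p : ℕ) : ℤ :=
  (p : ℤ) - (((Finset.range p ×ˢ Finset.range p).filter
    (fun xy : ℕ × ℕ => (p : ℤ) ∣ (xy.2 : ℤ) ^ 2 -
      ((xy.1 : ℤ) ^ 3 + a * (xy.1 : ℤ) + b))).card : ℤ)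

/-- The `n`-th Fourier coefficient of `f`. -/
noncomputable def coef {N : ℕ} (f : CuspForm (Gamma0 N : Subgroup (GL (Fin 2) ℝ)) 2) (n : ℕ) : ℂ :=
  (qExpansion 1 f).coeff n

/-- `f ∈ S_2(Γ₀(N))` is the newform of the elliptic curve `E : y² = x³ + a x + b` of conductor `N` and
root number `w`: the Fourier coefficients `c(n)` of `f` are real with `c(1) = 1`, they satisfy the
Hecke relations `c(mn) = c(m) c(n)` for coprime `m`, `n` and `c(p^(j+2)) = c(p) c(p^(j+1)) - p c(p^j)`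
(without the last term if `p ∣ N`), `f(-1/(Nτ)) = -w N τ² f(τ)`, `c(p) = a_p(E)` for all primes
`p ∤ 2 (4a³ + 27b²)`, `|c(p)| ≤ 2 √p` for all `p ∤ N` (Hasse) and `c(p) = 0, 1, -1` for `p ∣ N`.
By the modularity theorem (Wiles, Taylor-Wiles, Breuil-Conrad-Diamond-Taylor) it exists for every `E`. -/
structure IsFormOf (a b : ℤ) (N : ℕ) (f : CuspForm (Gamma0 N : Subgroup (GL (Fin 2) ℝ)) 2) (w : ℝ) :
    Prop where
  one : coef f 1 = 1
  real : ∀ n, (coef f n).im = 0
  mul : ∀ m n : ℕ, Nat.Coprime m n → coef f (m * n) = coef f m * coef f n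
  pow : ∀ p j : ℕ, p.Prime → coef f (p ^ (j + 2)) = coef f p * coef f (p ^ (j + 1)) -
      (if p ∣ N then 0 else (p : ℂ) * coef f (p ^ j))
  sign : w = 1 ∨ w = -1
  fricke : ∀ τ τ' : ℍ, (τ' : ℂ) * ((N : ℂ) * (τ : ℂ)) = -1 →
    f τ' = -(w : ℂ) * (N : ℂ) * (τ : ℂ) ^ 2 * f τ
  points : ∀ p : ℕ, p.Prime → ¬ (p : ℤ) ∣ 2 * (4 * a ^ 3 + 27 * b ^ 2) → coef f p = (ap a b p : ℂ)
  good : ∀ p : ℕ, p.Prime → ¬ p ∣ N → ‖coef f p‖ ≤ 2 * Real.sqrt p
  bad : ∀ p : ℕ, p.Prime → p ∣ N → coef f p = 0 ∨ coef f p = 1 ∨ coef f p = -1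

/-- `Λ` is the completed L-function of `f`: it is entire and
`Λ(s) = N^(s/2) (2π)^(-s) Γ(s) ∑ c(n) n^(-s)` for `Re s > 2`. -/
def IsCompleted {N : ℕ} (f : CuspForm (Gamma0 N : Subgroup (GL (Fin 2) ℝ)) 2) (Λ : ℂ → ℂ) : Prop :=
  Differentiable ℂ Λ ∧ ∀ s : ℂ, 2 < s.re →
    Λ s = ((Real.sqrt N / (2 * Real.pi) : ℝ) : ℂ) ^ s * Complex.Gamma s *
      ∑' n : ℕ, coef f (n + 1) * ((n + 1 : ℕ) : ℂ) ^ (-s)

/-- The number of points of `A`, each counted with its multiplicity as a zero of `F`. -/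
noncomputable def num (F : ℂ → ℂ) (A : Set ℂ) : ℕ := ∑ᶠ s ∈ A, analyticOrderNatAt F s

/-- The shifted sum `F(s) = Λ(s + h) + u Λ(s - h)`. -/
def Shifted (Λ : ℂ → ℂ) (h : ℝ) (u : ℂ) (s : ℂ) : ℂ := Λ (s + h) + u * Λ (s - h)

/-- The height `t` lies outside the discs with centres `1 + i γ` and radii `√(β² - h²)`, `1 + β + i γ` running through
the zeros of `Λ` with `|β| ≥ h`. -/
def Outside (Λ : ℂ → ℂ) (h t : ℝ) : Prop := ∀ ρ : ℂ, Λ ρ = 0 → (ρ.re - 1) ^ 2 < h ^ 2 + (t - ρ.im) ^ 2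

/-- The zeros of `F` with imaginary part in `[-T, T]` that are not on the line `Re s = 1` or are multiple. -/
def Exceptional (F : ℂ → ℂ) (T : ℝ) : Set ℂ := {s | F s = 0 ∧ (s.re ≠ 1 ∨ deriv F s = 0) ∧ |s.im| ≤ T}

theorem key {N : ℕ} [NeZero N] {f : CuspForm (Gamma0 N : Subgroup (GL (Fin 2) ℝ)) 2} {w : ℝ}
    (hf' : Pool.Agent.W169.HF.IsForm N f w) {Λ : ℂ → ℂ} (hΛ : IsCompleted f Λ) :
    ∃ v : ℂ, v ≠ 0 ∧ Pool.Agent.R838.TW.PL 1 (fun z => v * Λ (((1 : ℝ) : ℂ) + z)) := by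
  obtain ⟨X, v, h1, h2, h3⟩ := Pool.Agent.R838.TW.pl_fac (q := 1) (χ := 1) hf'
    DirichletCharacter.isPrimitive_one_level_one (Nat.coprime_one_left N)
  obtain ⟨Λ0, k1, k2, -, k4⟩ := Pool.Agent.R838.TW.exists_Lam h1 1
    (G := fun s => ((Real.sqrt N / (2 * Real.pi) : ℝ) : ℂ) ^ s * Complex.Gamma s *
      ∑' n : ℕ, coef f (n + 1) * ((n + 1 : ℕ) : ℂ) ^ (-s)) h2 (σ := 3 / 2) (fun s hs => by
      rw [Complex.ofReal_one, h3 s hs]
      unfold Pool.Agent.W355.UN.facE
      rw [Nat.cast_one, mul_one]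
      congr 2
      refine tsum_congr fun n => ?_
      rw [MulChar.one_apply (isUnit_of_subsingleton _), mul_one]
      rfl)
  have e : Λ0 = Λ := Pool.Agent.R838.TW.uniq hΛ.1 k1 ⟨2, hΛ.2⟩ ⟨3 / 2, k2⟩
  subst e
  exact ⟨v, h2, k4⟩

/-- **Main theorem.** Let `E : y² = x³ + a x + b` be an elliptic curve over `ℚ`, `Λ` its completed L-function and
`F(s) = Λ(s + h) + u Λ(s - h)` for `h > 0`, `|u| = 1`. Every zero of `F` that is multiple or not on the line `Re s = 1`
lies in a disc `|s - 1 - i γ|² ≤ β² - h²`, `1 + β + i γ` a zero of `Λ`. For heights `t1 < t2` outside these discs the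
number of zeros of `F` with `t1 < Im s < t2`, with multiplicity, is at most the number of distinct ones on the line plus
the number of zeros of `Λ` with `t1 < Im s < t2` at distance at least `h` from the line. For every `c < 1` there is `C`
such that for `T ≥ 2`, `h ≥ C / log T` and `|u| = 1` the number of zeros of `F` with `|Im s| ≤ T` that are multiple or
not on the line is at most `C T^(1 - c h) log T`. For `h > 0` all zeros of `Λ` satisfy `|Re s - 1| ≤ h` if and only if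
for all `|u| = 1` all zeros of `F` are on the line. For `|u| = 1`, `u ≠ -1`, the Riemann hypothesis for `L(E, s)` holds
if and only if for arbitrarily small `h > 0` all zeros of `F` are on the line. -/
theorem result (a b : ℤ) (N : ℕ) [NeZero N] (f : CuspForm (Gamma0 N : Subgroup (GL (Fin 2) ℝ)) 2) (w : ℝ)
    (_ : 4 * a ^ 3 + 27 * b ^ 2 ≠ 0) (hf : IsFormOf a b N f w) :
    ∃ Λ : ℂ → ℂ, IsCompleted f Λ ∧ (∀ Λ', IsCompleted f Λ' → Λ' = Λ) ∧
      (∀ s : ℂ, Λ (2 - s) = (w : ℂ) * Λ s) ∧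
      (∀ h : ℝ, 0 < h → ∀ u : ℂ, ‖u‖ = 1 →
        (∀ s : ℂ, Shifted Λ h u s = 0 → (s.re ≠ 1 ∨ deriv (Shifted Λ h u) s = 0) →
          ∃ ρ : ℂ, Λ ρ = 0 ∧ (s.re - 1) ^ 2 + (s.im - ρ.im) ^ 2 ≤ (ρ.re - 1) ^ 2 - h ^ 2) ∧
        ∀ t1 t2 : ℝ, t1 < t2 → Outside Λ h t1 → Outside Λ h t2 →
          {s : ℂ | Shifted Λ h u s = 0 ∧ t1 < s.im ∧ s.im < t2}.Finite ∧
          num (Shifted Λ h u) {s : ℂ | Shifted Λ h u s = 0 ∧ t1 < s.im ∧ s.im < t2} ≤
            {s : ℂ | Shifted Λ h u s = 0 ∧ s.re = 1 ∧ t1 < s.im ∧ s.im < t2}.ncard +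
              num Λ {s : ℂ | Λ s = 0 ∧ h ≤ |s.re - 1| ∧ t1 < s.im ∧ s.im < t2}) ∧
      (∀ c : ℝ, c < 1 → ∃ C : ℝ, 0 < C ∧ ∀ h T : ℝ, 0 < h → 2 ≤ T → C ≤ h * Real.log T → ∀ u : ℂ, ‖u‖ = 1 →
        (Exceptional (Shifted Λ h u) T).Finite ∧
        (num (Shifted Λ h u) (Exceptional (Shifted Λ h u) T) : ℝ) ≤ C * T ^ (1 - c * h) * Real.log T) ∧
      (∀ h : ℝ, 0 < h → ((∀ ρ : ℂ, Λ ρ = 0 → |ρ.re - 1| ≤ h) ↔
        ∀ u : ℂ, ‖u‖ = 1 → ∀ s : ℂ, Shifted Λ h u s = 0 → s.re = 1)) ∧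
      ∀ u : ℂ, ‖u‖ = 1 → u ≠ -1 → ((∀ ρ : ℂ, Λ ρ = 0 → ρ.re = 1) ↔
        ∀ ε : ℝ, 0 < ε → ∃ h : ℝ, 0 < h ∧ h < ε ∧ ∀ s : ℂ, Shifted Λ h u s = 0 → s.re = 1) := by
  have hf' : Pool.Agent.W169.HF.IsForm N f w :=
    { one := hf.one
      real := hf.real
      mul := hf.mul
      pow := hf.pow
      sign := hf.sign
      fricke := hf.fricke
      good := hf.good
      bad := fun p hp hpN => by
        have h1 : (1 : ℝ) ≤ Real.sqrt p := by
          rw [Real.one_le_sqrt]
          exact_mod_cast hp.one_le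
        have h2 : ‖coef f p‖ ≤ 1 := by
          rcases hf.bad p hp hpN with h | h | h <;> simp [h]
        exact h2.trans h1 }
  obtain ⟨Λ, hΛ, hfe, -, -⟩ := Pool.Agent.W174.HF.nf1 N f w hf'
  obtain ⟨v, hv, hP⟩ := key hf' hΛ
  have hκ : (1 : ℝ) / 2 ≤ 1 := by norm_num
  have hw : (w : ℂ) ≠ 0 := by
    rcases hf.sign with h | h <;> rw [h] <;> simp
  exact ⟨Λ, hΛ, fun Λ' h' => Pool.Agent.W169.HF.completed_unique h' hΛ, hfe,
    Pool.Agent.N76.SH.master (a := 1) hΛ.1 hv hP.sy hP.strip (hP.zero hκ)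
      ⟨w, hw, fun s => by rw [Complex.ofReal_one, mul_one]; exact hfe s⟩ (fun c hc => hP.dens_S hc)⟩

end Pool.Agent.Results.MP_553913_nt.ShiftedSums
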