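import Pool.Agent.N964.G4

/-!
# The finite Nyman-Beurling problem: exact exponents

For real `a_1, …, a_N` put `E_a(k) = 1 - ∑_{n ≤ N} a_n ⌊k / n⌋`.  The least weighted `l^p` error
`inf_a ∑_{k ≤ K} |E_a(k)|^p / k^(pσ+1)` is `N ^ (-p max (σ - Θ) 0 + o(1))`, where `Θ` is the supremum of the real
parts of the zeros of `ζ`, for all `1 ≤ p ≤ ∞`, all `σ > 0` and uniformly in `N (log N)^3 ≤ K ≤ ∞`.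
-/

set_option autoImplicit false

open Filter Topology ENNReal

namespace Pool.Agent.Results.MP_5a4862_nt.FiniteNymanBeurling

/-- the supremum of the real parts of the zeros of `ζ` -/
noncomputable def Theta : ℝ := sSup {x : ℝ | ∃ s : ℂ, riemannZeta s = 0 ∧ s.re = x}

/-- the error `1 - ∑_{n ≤ N} a_n ⌊k / n⌋` -/
noncomputable def err (a : ℕ → ℝ) (N k : ℕ) : ℝ := 1 - ∑ n ∈ Finset.Icc 1 N, a n * ((k / n : ℕ) : ℝ)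

/-- the infimum over the real coefficients of `∑_{1 ≤ k ≤ K} |err|^p / k^(pσ+1)`, where `K ≤ ∞` -/
noncomputable def minLp (p σ : ℝ) (N : ℕ) (K : ℕ∞) : ℝ≥0∞ :=
  ⨅ a : ℕ → ℝ, ∑' k : ℕ, if 1 ≤ k ∧ (k : ℕ∞) ≤ K then ENNReal.ofReal (|err a N k| ^ p / (k : ℝ) ^ (p * σ + 1)) else 0

/-- the infimum over the real coefficients of `sup_{1 ≤ k ≤ K} |err| / k^σ`, where `K ≤ ∞` -/
noncomputable def minSup (σ : ℝ) (N : ℕ) (K : ℕ∞) : ℝ≥0∞ :=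
  ⨅ a : ℕ → ℝ, ⨆ k : ℕ, if 1 ≤ k ∧ (k : ℕ∞) ≤ K then ENNReal.ofReal (|err a N k| / (k : ℝ) ^ σ) else 0

/-- `⌈N (log N)^3⌉` -/
noncomputable def size (N : ℕ) : ℕ := ⌈(N : ℝ) * Real.log N ^ 3⌉₊

theorem result :
    (∀ p σ ε : ℝ, 1 ≤ p → 0 < σ → 0 < ε → ∀ᶠ N : ℕ in atTop, ∀ K : ℕ∞, (size N : ℕ∞) ≤ K →
      ENNReal.ofReal ((N : ℝ) ^ (-(p * max (σ - Theta) 0) - ε)) ≤ minLp p σ N K ∧
      minLp p σ N K ≤ ENNReal.ofReal ((N : ℝ) ^ (-(p * max (σ - Theta) 0) + ε))) ∧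
    (∀ σ ε : ℝ, 0 < σ → 0 < ε → ∀ᶠ N : ℕ in atTop, ∀ K : ℕ∞, (size N : ℕ∞) ≤ K →
      ENNReal.ofReal ((N : ℝ) ^ (-(max (σ - Theta) 0) - ε)) ≤ minSup σ N K ∧
      minSup σ N K ≤ ENNReal.ofReal ((N : ℝ) ^ (-(max (σ - Theta) 0) + ε))) ∧
    (∀ σ τ : ℝ, 0 < σ → τ < σ →
      ((∀ s : ℂ, τ < s.re → riemannZeta s ≠ 0) →
        ∀ ε : ℝ, 0 < ε → ∀ᶠ N : ℕ in atTop, ∃ a : ℕ → ℝ, ∀ k : ℕ, 1 ≤ k →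
          |err a N k| ≤ (N : ℝ) ^ (-(σ - τ) + ε) * (k : ℝ) ^ σ) ∧
      ((∀ ε : ℝ, 0 < ε → ∃ᶠ N : ℕ in atTop, ∃ a : ℕ → ℝ, ∀ k : ℕ, 1 ≤ k → k ≤ size N →
          |err a N k| ≤ (N : ℝ) ^ (-(σ - τ) + ε) * (k : ℝ) ^ σ) →
        ∀ s : ℂ, τ < s.re → riemannZeta s ≠ 0)) ∧
    ((∃ σ₀ : ℝ, 1 / 2 < σ₀ ∧ σ₀ < 1 ∧ ∀ s : ℂ, σ₀ ≤ s.re → riemannZeta s ≠ 0) ↔
      ∃ δ : ℝ, 0 < δ ∧ ∃ᶠ N : ℕ in atTop, ∃ a : ℕ → ℝ, ∀ k : ℕ, 1 ≤ k → k ≤ size N →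
        |err a N k| ≤ (N : ℝ) ^ (-δ) * k) ∧
    (RiemannHypothesis ↔
      ∀ ε : ℝ, 0 < ε → ∃ᶠ N : ℕ in atTop, ∃ a : ℕ → ℝ, ∀ k : ℕ, 1 ≤ k → k ≤ size N →
        |err a N k| ≤ (N : ℝ) ^ (-(1 / 2) + ε) * k) :=
  Pool.Agent.N964.NB.main

end Pool.Agent.Results.MP_5a4862_nt.FiniteNymanBeurling
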