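import Pool.Agent.N964.D3

/-!
# The number of exceptions in the criteria of Nicolas and Robin

The number of `n ≤ X` with `n / φ(n) ≥ e^γ log log n` is `exp ((log X) ^ ((1 + Θ) / 2 + o(1)))`, where `Θ` is the
supremum of the real parts of the zeros of `ζ`.  If the Riemann hypothesis fails, the same holds for the number
of `n ≤ X` at which the inequality `σ(n) < e^γ n log log n` of Robin fails.
-/

set_option autoImplicit false

open Filter Topology

namespace Pool.Agent.N964.Shelf.RobinNicolasExceptions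

/-- the supremum of the real parts of the zeros of `ζ` -/
noncomputable def Theta : ℝ := sSup {x : ℝ | ∃ s : ℂ, riemannZeta s = 0 ∧ s.re = x}

/-- the number of integers `3 ≤ n ≤ X` with `n / φ(n) ≥ e^γ log log n` -/
noncomputable def nicolasCount (X : ℝ) : ℕ := Set.ncard {n : ℕ | 3 ≤ n ∧ (n : ℝ) ≤ X ∧
    Real.exp Real.eulerMascheroniConstant * Real.log (Real.log n) ≤ (n : ℝ) / (Nat.totient n : ℝ)}

/-- the number of integers `3 ≤ n ≤ X` with `σ(n) ≥ e^γ n log log n` -/
noncomputable def robinCount (X : ℝ) : ℕ := Set.ncard {n : ℕ | 3 ≤ n ∧ (n : ℝ) ≤ X ∧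
    Real.exp Real.eulerMascheroniConstant * n * Real.log (Real.log n) ≤ (ArithmeticFunction.sigma 1 n : ℝ)}

theorem result :
    Tendsto (fun X : ℝ => Real.log (Real.log (nicolasCount X)) / Real.log (Real.log X)) atTop
      (𝓝 ((1 + Theta) / 2)) ∧
    (RiemannHypothesis ↔
      Tendsto (fun X : ℝ => Real.log (Real.log (nicolasCount X)) / Real.log (Real.log X)) atTop (𝓝 (3 / 4))) ∧
    (RiemannHypothesis ↔
      ∀ ε : ℝ, 0 < ε → ∃ᶠ X : ℝ in atTop, (robinCount X : ℝ) ≤ Real.exp (Real.log X ^ (3 / 4 + ε))) ∧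
    (¬ RiemannHypothesis →
      Tendsto (fun X : ℝ => Real.log (Real.log (robinCount X)) / Real.log (Real.log X)) atTop
        (𝓝 ((1 + Theta) / 2))) :=
  Pool.Agent.N964.main

end Pool.Agent.N964.Shelf.RobinNicolasExceptions
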